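import Pool.Agent.H74.SQ.Main

set_option autoImplicit false

open Pool.Agent.H74.SQ

/-- No exponent `c < 1` works in Q1 or in Q2: with `γ = (r log n)^(-c)`, both statistical query
dimensions are at least `n ^ (r ^ δ)` as soon as `(log n) ^ K ≤ r ≤ sqrt (n / 2)`. -/
theorem Pool.Agent.Results.MP_52fefc_lc.ExponentBelowOne.result (c : ℝ) (hc : c < 1) :
    ∃ δ : ℝ, 0 < δ ∧ ∃ (K : ℝ) (n₀ : ℕ), ∀ n r : ℕ, n₀ ≤ n → (Real.log n) ^ K ≤ r →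
      2 * r ^ 2 ≤ n →
      ((⌈(n : ℝ) ^ ((r : ℝ) ^ δ)⌉₊ : ℕ) : ℕ∞) ≤
          sqDim (DecisionLists n r) (((r : ℝ) * Real.log n) ^ (-c)) ∧
        ((⌈(n : ℝ) ^ ((r : ℝ) ^ δ)⌉₊ : ℕ) : ℕ∞) ≤
          sqDim (SparseHalfspaces n r) (((r : ℝ) * Real.log n) ^ (-c)) := by
  obtain ⟨δ, hδ, K, n₀, h⟩ := main c hc
  exact ⟨δ, hδ, K, n₀, fun n r h1 h2 h3 => ⟨h n r h1 h2 h3,
    (h n r h1 h2 h3).trans (sqDim_mono (lists_subset_halfspaces n r) _)⟩⟩
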