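import Pool.Agent.SQD.Main

set_option autoImplicit false

open Pool.Agent.H74.SQ

/-- Negative answer to Q1 and Q2: for all `c, C > 0` there are `n ≥ 3` and `1 ≤ r ≤ n` such that both
`SQ-DIM(L_r, (r log n)^(-c))` and `SQ-DIM(H_r, (r log n)^(-c))` are larger than `n ^ C`. -/
theorem Pool.Agent.Results.MP_52fefc_lc.NegativeAnswer.result (c C : ℝ) (hc : 0 < c)
    (hC : 0 < C) :
    ∃ n r : ℕ, 3 ≤ n ∧ 1 ≤ r ∧ r ≤ n ∧ ∃ M : ℕ, (n : ℝ) ^ C < M ∧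
      (M : ℕ∞) ≤ sqDim (DecisionLists n r) (((r : ℝ) * Real.log n) ^ (-c)) ∧
      (M : ℕ∞) ≤ sqDim (SparseHalfspaces n r) (((r : ℝ) * Real.log n) ^ (-c)) :=
  Pool.Agent.SQD.main c C hc hC
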