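import Pool.Agent.H74.SQ.Upper

set_option autoImplicit false

open Pool.Agent.H74.SQ

/-- The case of product distributions, with the exact exponent. First part: for `c ≥ 1 + a` the
bound asked for in Q1 holds for all distributions which dominate `(r log n)^(-a)` times a product
distribution (for `a = 0`: for all product distributions). Second part: for `c < 1` it fails
already for length-`r` decision lists and product distributions. -/
theorem Pool.Agent.Results.MP_52fefc_lc.ProductThreshold.result :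
    (∀ a c : ℝ, 0 ≤ a → 1 + a ≤ c →
      ∃ C : ℝ, ∀ n r : ℕ, 3 ≤ n → 1 ≤ r → r ≤ n → ∀ D μ : (Fin n → Bool) → ℝ,
        IsDist D → IsProduct μ → (∀ x, ((r : ℝ) * Real.log n) ^ (-a) * μ x ≤ D x) →
        ∀ k : ℕ, HasFamily (SparseHalfspaces n r) D (((r : ℝ) * Real.log n) ^ (-c)) k →
          (k : ℝ) ≤ (n : ℝ) ^ C) ∧
    (∀ c : ℝ, c < 1 → ∀ C : ℝ,
      ∃ (n r : ℕ) (D : (Fin n → Bool) → ℝ) (k : ℕ), 3 ≤ n ∧ 1 ≤ r ∧ r ≤ n ∧ IsDist D ∧
        IsProduct D ∧ HasFamily (DecisionLists n r) D (((r : ℝ) * Real.log n) ^ (-c)) k ∧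
        (n : ℝ) ^ C < k) ∧
    (∀ n r : ℕ, DecisionLists n r ⊆ SparseHalfspaces n r) :=
  ⟨fun a c ha hc => upper_format a c ha hc, fun c hc C => lower_product c hc C,
    lists_subset_halfspaces⟩
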